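import Pool.Agent.W93.PG7
import Pool.Agent.TH872.Mir7

/-!
# Goldbach representations in primorial intervals for almost all palindromes

Definitions used:
* in `Pool.Agent.H560R3.GB`: `C₂`: the twin prime constant `∏_{p > 2} (1 - 1 / (p - 1) ^ 2)`; `sing m`: the
  singular series `2 C₂ ∏_{p ∣ m, p > 2} (p - 1) / (p - 2)`;
* in `Pool.Agent.TH872.Tr`: `num b k E`: the number of the palindromes with exactly `k` digits in base `b`
  which have the property `E`; `value b k κ c d z`: the integer `c + κ v`, where `v` has the pair of digits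
  `d i` at the positions `i` and `k - 1 - i`, for `i < k / 2`, and, if `k` is odd, the middle digit `z`;
  `Prob b k w u E`: the probability of the event `E` if the pairs `d i` and `z` are chosen independently of
  each other with the distributions `w i` and `u`; `Pairs b k η w`: the `w i` are distributions of pairs of
  digits, and two independent copies of the pair number `i` (`i ≥ 1`) differ in both digits with a
  probability of at least `η`.
-/

set_option autoImplicit false

namespace Pool.Agent.Results.MP_484fb8_nt.Palindromes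

open Finset Pool.Agent.H560R3.GB Pool.Agent.TH872.Tr

/-- `#(n)`: the product of the first `n` primes. -/
noncomputable def P (n : ℕ) : ℕ := ∏ i ∈ range n, Nat.nth Nat.Prime i

/-- The number of primes `p` in the `n`-th primorial interval such that `m - p` is a prime which lies in the
`n`-th or in the `n + 1`-st primorial interval. -/
noncomputable def R (n m : ℕ) : ℕ :=
  ((Icc (P (n - 1) + 1) (P n + 1)).filter
    (fun p => p.Prime ∧ (m - p).Prime ∧ P (n - 1) + 1 ≤ m - p ∧ m - p ≤ P (n + 1) + 1)).card

/-- If `m` belongs to the `n + 1`-st primorial interval (`n ≥ 1`), then `m = p + q` where `p` is a prime in the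
`n`-th primorial interval and `q` is a prime in the `n`-th or in the `n + 1`-st one; moreover, up to a relative
error of at most `ε`, the number of these representations is `sing m * #(n) / log ^ 2 m`. -/
def Holds (ε : ℝ) (m : ℕ) : Prop :=
  ∀ n : ℕ, 1 ≤ n → P n + 1 ≤ m → m ≤ P (n + 1) + 1 →
    (∃ p q : ℕ, p.Prime ∧ q.Prime ∧ m = p + q ∧ P (n - 1) + 1 ≤ p ∧ p ≤ P n + 1 ∧ P (n - 1) + 1 ≤ q ∧ q ≤ P (n + 1) + 1) ∧
    |(R n m : ℝ) - sing m * P n / Real.log m ^ 2| ≤ ε * (sing m * P n / Real.log m ^ 2)

lemma holds_of (ε : ℝ) (hε : 0 < ε) : ∃ m₀ : ℕ, ∀ m : ℕ, m₀ ≤ m → 2 ∣ m →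
    Pool.Agent.W93.PG.WinP (min ε (1 / 2) / 4) 2 m → Holds ε m := by
  obtain ⟨m₀, h0⟩ := Pool.Agent.W93.PG.reps_of_win (min ε (1 / 2)) (lt_min hε (by norm_num))
    ((min_le_right _ _).trans (by norm_num))
  refine ⟨m₀ + 3, ?_⟩
  intro m hm _ hwin n hn h2 h3
  have h4 := h0 m (by omega) hwin n hn h2 h3
  have hm0 : (3 : ℝ) ≤ m := by exact_mod_cast (by omega : 3 ≤ m)
  have hlog : 0 < Real.log m := Real.log_pos (by linarith)
  have hs := Pool.Agent.W93.GB.one_le_sing m
  have hP : (0 : ℝ) < P n := by exact_mod_cast Pool.Agent.W93.PG.PR_pos n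
  have hmain : 0 < sing m * P n / Real.log m ^ 2 := by positivity
  have hR : R n m = Pool.Agent.W93.PG.reps n m := rfl
  have hPR : Pool.Agent.W93.PG.PR n = P n := rfl
  rw [← hR, hPR] at h4
  have h5 : |(R n m : ℝ) - sing m * P n / Real.log m ^ 2| ≤ ε * (sing m * P n / Real.log m ^ 2) :=
    h4.trans (mul_le_mul_of_nonneg_right (min_le_left _ _) hmain.le)
  have h6 : |(R n m : ℝ) - sing m * P n / Real.log m ^ 2| ≤ 1 / 2 * (sing m * P n / Real.log m ^ 2) :=
    h4.trans (mul_le_mul_of_nonneg_right (min_le_right _ _) hmain.le)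
  refine ⟨?_, h5⟩
  have h7 : (0 : ℝ) < R n m := by
    rw [abs_le] at h6
    linarith [h6.1]
  have h8 : 0 < R n m := by exact_mod_cast h7
  unfold R at h8
  rw [card_pos] at h8
  obtain ⟨p, hp⟩ := h8
  rw [mem_filter, mem_Icc] at hp
  obtain ⟨⟨p1, p2⟩, p3, p4, p5, p6⟩ := hp
  exact ⟨p, m - p, p3, p4, by have := p4.pos; omega, p1, p2, p5, p6⟩

/-- Let `b ≥ 2`, `B`, `U`, `κ ≠ 0`, `η > 0` and `ε > 0` be fixed, let `k` be large, and let `c` be an
arbitrary integer with `|c| ≤ B b ^ k`.

(1) Let `v` be a random integer with `k` digits in base `b`, such that the pairs formed by the digits at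
the positions `i` and `k - 1 - i` are independent of each other for different `i`. Inside of a pair the
digits may depend on each other in an arbitrary way; the distributions of the pairs are arbitrary (and
depend on the position and on `k`), only two independent copies of a pair (with `i ≥ 1`) should differ in
both digits with a probability of at least `η`. Then, with a probability of at least `1 - 1 / k ^ U`, the
integer `m = c + κ v` has the following property: if `m` is positive and even, then the assertion of the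
problem holds for `m`, and the number of the representations required there is as predicted, up to a
relative error of at most `ε`.

(2) In particular this holds for all the palindromes `v` with `k` digits in base `b`, up to a proportion of
at most `1 / k ^ U` of them. -/
theorem result (b B U : ℕ) (hb : 2 ≤ b) (κ : ℤ) (hκ : κ ≠ 0) (η ε : ℝ) (hη : 0 < η) (hε : 0 < ε) :
    ∃ k₀ : ℕ, ∀ k : ℕ, k₀ ≤ k → ∀ c : ℤ, |c| ≤ B * (b : ℤ) ^ k →
      (∀ (w : ℕ → ℕ × ℕ → ℝ) (u : ℕ → ℝ), Pairs b k η w → (∀ a, 0 ≤ u a) → ∑ a ∈ range b, u a = 1 →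
        Prob b k w u (fun d z => 0 < value b k κ c d z ∧ Even (value b k κ c d z) ∧
          ¬ Holds ε (value b k κ c d z).toNat) ≤ 1 / (k : ℝ) ^ U) ∧
      (num b k (fun v => 0 < c + κ * v ∧ Even (c + κ * v) ∧ ¬ Holds ε (c + κ * v).toNat) : ℝ) ≤
        num b k (fun _ => True) / (k : ℝ) ^ U := by
  obtain ⟨m₀, h0⟩ := holds_of ε hε
  obtain ⟨k₀, h⟩ := transfer b B U hb κ _ (Pool.Agent.TH872.Mir.mir_windows b B U 2 m₀ hb κ hκ (min ε (1 / 2) / 4)
    (div_pos (lt_min hε (by norm_num)) (by norm_num)) (Holds ε) h0) η hη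
  refine ⟨k₀, fun k hk c hc => ?_⟩
  exact h k hk c hc (fun n => 0 < n ∧ Even n ∧ ¬ Holds ε n.toNat) (fun n hn => hn)

end Pool.Agent.Results.MP_484fb8_nt.Palindromes
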